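import Pool.Agent.Helper19.RFn.ONBa

/-!
Project RFn, assembly M-ONB, part b: the metric argument.
-/

set_option autoImplicit false

open Finset Set Pool.Agent.Helper47.RFn Pool.Agent.Helper73.RFn

namespace Pool.Agent.Helper19.RFn.ONB

variable {n : ℕ}

theorem gq_smul (G : MF n) {v : EE n → ℝ} (hv : Sm v) (k : ℝ) (x : EE n) :
    ∑ i, ∑ j, (G x)⁻¹ i j * ed i (fun y => k * v y) x * ed j (fun y => k * v y) x
      = k ^ 2 * ∑ i, ∑ j, (G x)⁻¹ i j * ed i v x * ed j v x := by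
  rw [Finset.mul_sum]
  refine Finset.sum_congr rfl fun i _ => ?_
  rw [Finset.mul_sum]
  refine Finset.sum_congr rfl fun j _ => ?_
  rw [(c2d n).2.2.2.2.2.1 i k v x hv, (c2d n).2.2.2.2.2.1 j k v x hv]; ring

theorem geo (hLip : LipStmt) (hDbd : DbdStmt) (hTrc : TrcStmt) (hn : 1 ≤ n) (G : MF n) (hG : IsMetric G)
    (h : EE n → ℝ) (hh : Sm h)
    (hh1 : ∀ x, x ≠ 0 → ∑ i, ∑ j, (G x)⁻¹ i j * ed i h x * ed j h x ≤ 1)
    (l k R : ℝ) (hl0 : 0 < l) (hl1 : l < 1) (hR : 0 < R) (hRk : 2 * k < (1 - l) * R)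
    (p : EE n) (hp : ‖p‖ = 1) (hhp : h p = 0)
    (SP : ∀ q : EE n, ‖q‖ = 1 → ∀ ε > 0, ∃ v : EE n → ℝ, Sm v ∧
      (∀ x, x ≠ 0 → h x < 2 * R → ∑ i, ∑ j, (G x)⁻¹ i j * ed i v x * ed j v x ≤ l ^ 2) ∧
      ∀ x : EE n, ‖x‖ = 1 → |v x - gdist G q x| ≤ ε + k) :
    (∀ x, x ≠ 0 → h x < R) ∧ ∀ x y : EE n, ‖x‖ = 1 → ‖y‖ = 1 → (1 - l) * gdist G x y ≤ 2 * k := by
  obtain ⟨-, hd0, -, -, -, hself, -, -, -⟩ := hDbd n G hn hG
  have hA1 : ∀ y : EE n, ‖y‖ = 1 → h y < R := by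
    by_contra hcon
    push Not at hcon
    obtain ⟨y0, hy0, hy0R⟩ := hcon
    set S : Set ℝ := {r | ∃ y : EE n, ‖y‖ = 1 ∧ R ≤ h y ∧ r = gdist G p y} with hS
    have hbdd : BddBelow S := ⟨0, by rintro r ⟨y, -, -, rfl⟩; exact hd0 p y⟩
    have hne : S.Nonempty := ⟨_, y0, hy0, hy0R, rfl⟩
    set dS : ℝ := sInf S with hdS
    have hle : ∀ y : EE n, ‖y‖ = 1 → R ≤ h y → dS ≤ gdist G p y := fun y h1 h2 =>
      csInf_le hbdd ⟨y, h1, h2, rfl⟩
    have hRd : R ≤ dS := by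
      refine le_csInf hne ?_
      rintro r ⟨y, h1, h2, rfl⟩
      have h3 := hLip n G h 1 hn hG hh zero_le_one (by simpa using hh1) p y hp h1
      rw [hhp, zero_sub, abs_neg, one_mul] at h3
      exact h2.trans ((le_abs_self _).trans h3)
    set δ : ℝ := (1 - l) * R - 2 * k with hδ
    have hδ0 : 0 < δ := by rw [hδ]; linarith
    obtain ⟨v, hv, hv1, hv2⟩ := SP p hp (δ / 4) (by linarith)
    have hw1 : ∀ x, x ≠ 0 → h x < 2 * R →
        ∑ i, ∑ j, (G x)⁻¹ i j * ed i (fun y => l⁻¹ * v y) x * ed j (fun y => l⁻¹ * v y) x ≤ 1 := by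
      intro x hx hxR
      rw [gq_smul G hv]
      have h4 := hv1 x hx hxR
      calc l⁻¹ ^ 2 * _ ≤ l⁻¹ ^ 2 * l ^ 2 := mul_le_mul_of_nonneg_left h4 (by positivity)
        _ = 1 := by field_simp
    have hw2 : ∀ x, x ≠ 0 → R ≤ h x → h x < 2 * R → l⁻¹ * (dS - δ / 4 - k) ≤ l⁻¹ * v x := by
      intro x hx h1 _
      refine mul_le_mul_of_nonneg_left ?_ (inv_nonneg.mpr hl0.le)
      have h5 := hv2 _ (norm_unit hx)
      rw [hom_unit hv.hom hx] at h5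
      have h6 := hle _ (norm_unit hx) (by rw [hom_unit hh.hom hx]; exact h1)
      have h7 := (abs_le.mp h5).1
      linarith
    have hT := hTrc n G h (fun y => l⁻¹ * v y) R (2 * R) (l⁻¹ * (dS - δ / 4 - k)) p hn hG hh (sm_smul hv _)
      (by linarith) hw1 hw2 hp (by rw [hhp]; exact hR)
    have h8 : l⁻¹ * (dS - δ / 4 - k) - l⁻¹ * v p ≤ dS := by
      refine le_csInf hne ?_
      rintro r ⟨y, h1, h2, rfl⟩
      exact hT y h1 h2
    have h9 := hv2 p hp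
    rw [hself p hp, sub_zero] at h9
    have h10 := (abs_le.mp h9).2
    have h11 : dS - δ / 4 - k - v p ≤ l * dS := by
      have h12 : l⁻¹ * (dS - δ / 4 - k - v p) ≤ dS := by rw [mul_sub]; exact h8
      have h13 := mul_le_mul_of_nonneg_left h12 hl0.le
      rwa [← mul_assoc, mul_inv_cancel₀ hl0.ne', one_mul] at h13
    have h14 : (1 - l) * R ≤ (1 - l) * dS := mul_le_mul_of_nonneg_left hRd (by linarith)
    rw [hδ] at h10 h11
    nlinarith
  have hA : ∀ x, x ≠ 0 → h x < R := by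
    intro x hx
    have := hA1 _ (norm_unit hx)
    rwa [hom_unit hh.hom hx] at this
  refine ⟨hA, ?_⟩
  intro x y hx hy
  refine le_of_forall_pos_le_add fun ε hε => ?_
  obtain ⟨v, hv, hv1, hv2⟩ := SP x hx (ε / 2) (by linarith)
  have h1 := hLip n G v l hn hG hv hl0.le (fun z hz => hv1 z hz (by linarith [hA z hz])) x y hx hy
  have h2 := hv2 x hx
  rw [hself x hx, sub_zero] at h2
  have h3 := hv2 y hy
  have h4 := (abs_le.mp h2).2
  have h5 := (abs_le.mp h3).1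
  have h6 := (abs_le.mp h1).1
  linarith

end Pool.Agent.Helper19.RFn.ONB
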