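import Pool.Agent.Helper47.RFn.Alg

/-! G3: the third family of good parameters (packet RFn-G3). -/

set_option linter.unusedVariables false

namespace Pool.Agent.Helper47.RFn

open Finset

namespace G3Aux19

theorem ric_eq {n : ℕ} (S : T4 n) : Ric S = Ric0 S + lam S • (1 : M2 n) := by
  simp [Ric0]

theorem dab_half {n : ℕ} (a : ℝ) (S : T4 n) :
    Dab a (1 / 2) S = (((n : ℝ) + 2) / 4) • wdg (Ric0 S) (Ric0 S)
      + (4 * a * lam S) • wdg (Ric0 S) 1 + (1 / 2 : ℝ) • wdg (Ric0 S * Ric0 S) 1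
      + (2 * a * lam S ^ 2 - (2 * a - 1) * n * sig S / (4 * (1 + 2 * ((n : ℝ) - 1) * a))) •
        Id4 n := by
  funext i j k l
  have hR := ric_eq S
  simp only [Dab, Pi.add_apply, Pi.smul_apply, smul_eq_mul, wdg, Id4]
  rw [hR]
  simp only [Matrix.add_apply, Matrix.smul_apply, smul_eq_mul]
  generalize (1 + 2 * ((n : ℝ) - 1) * a) = N
  generalize Ric0 S = A
  ring

theorem trace_sq {n : ℕ} {A : M2 n} (hA : A.IsSymm) :
    ∑ a, (A * A) a a = ∑ a, ∑ b, A a b ^ 2 := by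
  refine Finset.sum_congr rfl fun a _ => ?_
  rw [Matrix.mul_apply]
  refine Finset.sum_congr rfl fun b _ => ?_
  rw [hA.apply a b]
  ring

end G3Aux19

open G3Aux19

theorem goal_G3 (hDG : Goal_DG) (hRB : Goal_RB) (hDF : Goal_DF) (hEV : Goal_EV) (hCB : Goal_CB)
    (hQB : Goal_QB) (hWQ : Goal_WQ) (hLN : Goal_LN) (hCL : Goal_CL) : Goal_G3 := by
  intro n hn a1 ha1
  have hn' : (4 : ℝ) ≤ n := by exact_mod_cast hn
  have hp1a : 3 / 4 ≤ p1 n := le_max_left _ _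
  have hp1b : ((n : ℝ) - 2) / ((n : ℝ) + 2) ≤ p1 n := le_max_right _ _
  have hp1c : p1 n < 1 := max_lt (by norm_num) (by rw [div_lt_one (by linarith)]; linarith)
  obtain ⟨p, hp⟩ : ∃ p, p = p1 n := ⟨_, rfl⟩
  rw [← hp] at hp1a hp1b hp1c ⊢
  have hη0 : 0 < 1 - p := by linarith
  have hη1 : 1 - p ≤ 1 / 4 := by linarith
  have hη2 : 1 - p ≤ 4 / ((n : ℝ) + 2) := by
    have h1 : ((n : ℝ) - 2) / ((n : ℝ) + 2) = 1 - 4 / ((n : ℝ) + 2) := by
      field_simp; ring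
    linarith
  have hη2' : (1 - p) * ((n : ℝ) + 2) ≤ 4 := by
    rwa [le_div_iff₀ (by linarith)] at hη2
  have hN1 : 0 < 1 + 2 * ((n : ℝ) - 1) * a1 := by nlinarith
  have hc2 : 0 < (1 - p) ^ 3 * n / (4 * (1 + 2 * ((n : ℝ) - 1) * a1)) := by positivity
  refine ⟨min (1 / 3) ((1 - p) ^ 3 * n / (4 * (1 + 2 * ((n : ℝ) - 1) * a1))),
    lt_min (by norm_num) hc2, ?_⟩
  intro a ha ha'
  obtain ⟨c, hc⟩ : ∃ c, c = min (1 / 3)
    ((1 - p) ^ 3 * n / (4 * (1 + 2 * ((n : ℝ) - 1) * a1))) := ⟨_, rfl⟩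
  rw [← hc]
  have hc0 : 0 < c := by rw [hc]; exact lt_min (by norm_num) hc2
  have hc3 : c ≤ 1 / 3 := by rw [hc]; exact min_le_left _ _
  have hc4 : c ≤ (1 - p) ^ 3 * n / (4 * (1 + 2 * ((n : ℝ) - 1) * a1)) := by
    rw [hc]; exact min_le_right _ _
  have hN : (n : ℝ) ≤ 1 + 2 * ((n : ℝ) - 1) * a := by nlinarith
  have hNpos : 0 < 1 + 2 * ((n : ℝ) - 1) * a := by linarith
  have hNle : 1 + 2 * ((n : ℝ) - 1) * a ≤ 1 + 2 * ((n : ℝ) - 1) * a1 := by nlinarith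
  refine ⟨by linarith, by norm_num, by linarith, hp1c, hc0, ?_, ?_⟩
  · intro S hS hR z w
    have hcurv := hS.1
    have hlam := (hCB n (by omega) S hS).1
    obtain ⟨ev1, ev2⟩ := hEV n (by omega) p S hcurv (by linarith) hp1c hlam hR
    have hsymm : (Ric0 S).IsSymm := ((hCL n).2.2.2.2.2.2.1 S hcurv).2
    rw [dab_half]
    refine hDG n (Ric0 S) _ _ _ _ (c * lam S ^ 2) hsymm ?_ z w
    intro u v x y hu hv huv hx hy
    have hx' := ev2 u x hu hx
    have hy' := ev2 v y hv hy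
    have hσ : 0 ≤ sig S := by
      unfold sig
      exact div_nonneg (Finset.sum_nonneg fun _ _ => Finset.sum_nonneg fun _ _ => sq_nonneg _)
        (by linarith)
    obtain ⟨L, hL⟩ : ∃ L, L = lam S := ⟨_, rfl⟩
    rw [← hL] at hlam ev1 hx' hy' ⊢
    -- first bracket
    have f1 : 0 ≤ (((n : ℝ) + 2) / 4) * (x + 4 * L / ((n : ℝ) + 2)) *
        (y + 4 * L / ((n : ℝ) + 2)) := by
      have g1 : (1 - p) * L ≤ 4 * L / ((n : ℝ) + 2) := by
        rw [le_div_iff₀ (by linarith)]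
        nlinarith
      have g2 : 0 ≤ x + 4 * L / ((n : ℝ) + 2) := by linarith
      have g3 : 0 ≤ y + 4 * L / ((n : ℝ) + 2) := by linarith
      have g4 : 0 ≤ ((n : ℝ) + 2) / 4 := by linarith
      exact mul_nonneg (mul_nonneg g4 g2) g3
    have f2 : (((n : ℝ) + 2) / 4) * (x + 4 * L / ((n : ℝ) + 2)) * (y + 4 * L / ((n : ℝ) + 2)) =
        (((n : ℝ) + 2) / 4) * (x * y) + L * (x + y) + 4 / ((n : ℝ) + 2) * L ^ 2 := by
      field_simp
      ring
    have f3 : 4 / ((n : ℝ) + 2) ≤ 2 / 3 := by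
      rw [div_le_iff₀ (by linarith)]
      linarith
    have f4 : 4 / ((n : ℝ) + 2) * L ^ 2 ≤ 2 / 3 * L ^ 2 :=
      mul_le_mul_of_nonneg_right f3 (sq_nonneg L)
    -- second bracket
    have s1 : (n : ℝ) * sig S / (4 * (1 + 2 * ((n : ℝ) - 1) * a)) ≤ sig S / 4 := by
      rw [div_le_div_iff₀ (by positivity) (by norm_num)]
      nlinarith
    have s2 : ((n : ℝ) - 1) * (1 - p) ^ 2 ≤ 1 := by
      have : (1 - p) ^ 2 * ((n : ℝ) + 2) ≤ 1 := by nlinarith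
      nlinarith
    have s3 : sig S ≤ L ^ 2 := by
      have := mul_le_mul_of_nonneg_right s2 (sq_nonneg L)
      linarith
    have s4 : 0 ≤ L ^ 2 + L * (x + y) - (n : ℝ) * sig S / (4 * (1 + 2 * ((n : ℝ) - 1) * a)) := by
      have t1 : L * (x + y) ≥ L * (-(2 * ((1 - p) * L))) :=
        mul_le_mul_of_nonneg_left (by linarith) hlam
      have t2 : L * (-(2 * ((1 - p) * L))) ≥ -(1 / 2) * L ^ 2 := by nlinarith [sq_nonneg L]
      nlinarith [sq_nonneg L]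
    have s5 : 0 ≤ (2 * a - 1) * (L ^ 2 + L * (x + y) -
        (n : ℝ) * sig S / (4 * (1 + 2 * ((n : ℝ) - 1) * a))) :=
      mul_nonneg (by linarith) s4
    have s6 : (2 * a - 1) * (n : ℝ) * sig S / (4 * (1 + 2 * ((n : ℝ) - 1) * a)) =
        (2 * a - 1) * ((n : ℝ) * sig S / (4 * (1 + 2 * ((n : ℝ) - 1) * a))) := by ring
    have s7 : c * L ^ 2 ≤ 1 / 3 * L ^ 2 := mul_le_mul_of_nonneg_right hc3 (sq_nonneg L)
    rw [s6]
    nlinarith [sq_nonneg x, sq_nonneg y]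
  · intro S hS hR v hv
    have hcurv := hS.1
    have hlam := (hCB n (by omega) S hS).1
    have hsymm : (Ric0 S).IsSymm := ((hCL n).2.2.2.2.2.2.1 S hcurv).2
    obtain ⟨r1, r2, r3, r4⟩ := hRB n (by omega) p S (by linarith) hp1c hS hR v hv
    obtain ⟨-, dRic⟩ := hDF n (by omega) a (1 / 2) (by linarith) (by norm_num) S hcurv
    obtain ⟨-, -, l3, -, l5, -, -, -, -, -, l11, l12, l13, l14⟩ := hLN n
    obtain ⟨-, -, -, -, -, -, q7⟩ := hQB n
    have q7' := q7 S hcurv (by omega)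
    have hn0 : (n : ℝ) ≠ 0 := by positivity
    -- lam of D
    have hlD : lam (Dab a (1 / 2) S) = -sig S + (2 * a * ((n : ℝ) - 1) * lam S ^ 2 +
        sig S * ((n : ℝ) ^ 2 * (1 / 2) ^ 2 - 2 * ((n : ℝ) - 1) * (a - 1 / 2) * (1 - 2 * (1 / 2))) /
          (1 + 2 * ((n : ℝ) - 1) * a)) := by
      have e1 : lam (Dab a (1 / 2) S) = (∑ i, Ric (Dab a (1 / 2) S) i i) / n := rfl
      rw [e1, dRic]
      simp only [Matrix.add_apply, Matrix.smul_apply, smul_eq_mul, Matrix.one_apply_eq]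
      rw [Finset.sum_add_distrib, Finset.sum_add_distrib, ← Finset.mul_sum, ← Finset.mul_sum,
        trace_sq hsymm, Finset.sum_const, Finset.card_univ, Fintype.card_fin, nsmul_eq_mul]
      have e2 : ∑ i, Ric0 S i i = 0 := l11 S (by omega)
      have e3 : ∑ i, ∑ j, Ric0 S i j ^ 2 = n * sig S := by
        unfold sig; field_simp
      rw [e2, e3]
      field_simp
      ring
    rw [l3, l12, l5, q7', hlD, dRic, l12, l12, l13, l13, l13, l14, r3, r4]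
    obtain ⟨L, hL⟩ : ∃ L, L = lam S := ⟨_, rfl⟩
    rw [← hL] at hlam r1 r2 ⊢
    by_cases hv0 : v = 0
    · have e0 : nrm v = 0 := by rw [hv0]; simp [nrm]
      rw [e0] at r1 ⊢
      simp only [mul_zero] at r1 ⊢
      linarith
    · have hσ := r2 hv0
      have hnv : 0 ≤ nrm v := Finset.sum_nonneg fun _ _ => sq_nonneg _
      have h1 : c * L ^ 2 ≤ (1 - p) * (L ^ 2 * (2 * a - 1)) +
          (1 - p) * (sig S * (n : ℝ) ^ 2 / (4 * (1 + 2 * ((n : ℝ) - 1) * a))) := by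
        have k1 : 0 ≤ (1 - p) * (L ^ 2 * (2 * a - 1)) :=
          mul_nonneg hη0.le (mul_nonneg (sq_nonneg L) (by linarith))
        have k2 : (1 - p) ^ 2 * L ^ 2 / n * (n : ℝ) ^ 2 / (4 * (1 + 2 * ((n : ℝ) - 1) * a)) ≤
            sig S * (n : ℝ) ^ 2 / (4 * (1 + 2 * ((n : ℝ) - 1) * a)) := by
          gcongr
        have k3 : (1 - p) ^ 2 * L ^ 2 / n * (n : ℝ) ^ 2 / (4 * (1 + 2 * ((n : ℝ) - 1) * a1)) ≤
            (1 - p) ^ 2 * L ^ 2 / n * (n : ℝ) ^ 2 / (4 * (1 + 2 * ((n : ℝ) - 1) * a)) := by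
          gcongr
        have k4 : (1 - p) * ((1 - p) ^ 2 * L ^ 2 / n * (n : ℝ) ^ 2 /
            (4 * (1 + 2 * ((n : ℝ) - 1) * a1))) =
            (1 - p) ^ 3 * n / (4 * (1 + 2 * ((n : ℝ) - 1) * a1)) * L ^ 2 := by
          field_simp
        have k5 := mul_le_mul_of_nonneg_left (k3.trans k2) hη0.le
        have k6 := mul_le_mul_of_nonneg_right hc4 (sq_nonneg L)
        linarith
      have h2 := mul_le_mul_of_nonneg_right h1 hnv
      have h3 : (n : ℝ) ^ 2 * (1 / 2) ^ 2 - 2 * ((n : ℝ) - 1) * (a - 1 / 2) * (1 - 2 * (1 / 2)) =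
          (n : ℝ) ^ 2 / 4 := by ring
      rw [h3]
      have h4 : sig S * ((n : ℝ) ^ 2 / 4) / (1 + 2 * ((n : ℝ) - 1) * a) =
          sig S * (n : ℝ) ^ 2 / (4 * (1 + 2 * ((n : ℝ) - 1) * a)) := by
        field_simp
      rw [h4]
      generalize sig S * (n : ℝ) ^ 2 / (4 * (1 + 2 * ((n : ℝ) - 1) * a)) = X at h2 ⊢
      nlinarith [h2, r1]

end Pool.Agent.Helper47.RFn
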