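import Pool.Agent.Helper47.RFn.GoalsE
import Pool.Agent.Helper47.RFn.GoalsB
import Pool.Agent.Helper73.RFn.GoalsH

/-!
# Project RFn (MP_c98eff_gt), the local Myers theorem along the flow (goals M)

No curves, no static heat equation: everything uses the Ricci flow started at the time in question and the heat
equation along it. Language of `Helper47/RFn/FlowN.lean`. Every `def ... : Prop` is a packet; the others may be
used as hypotheses.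
-/

set_option autoImplicit false

open Finset Pool.Agent.Helper47.RFn Pool.Agent.Helper73.RFn

namespace Pool.Agent.Helper19.RFn

/-- PACKET M-SHF (0.5 h). Shift in time and restriction of flows and heat solutions.

Proof. Unfold: `SmFam`, `SmFam1`, `FFlow`, `HeatOn` are conditions for all `t ∈ I`; `ContinuousOn` composed with
`(t,x) ↦ (t0 + t, x)`, `HasDerivWithinAt.mono` and `HasDerivWithinAt.comp` (the shift has derivative `1` and maps `J`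
into `I`). -/
def ShfStmt : Prop :=
  ∀ (n : ℕ) (A θ : ℝ → MF n) (u : ℝ → EE n → ℝ) (I J : Set ℝ),
    (J ⊆ I → FFlow I A θ → FFlow J A θ) ∧ (J ⊆ I → HeatOn I A θ u → HeatOn J A θ u) ∧
    (∀ t0 : ℝ, (∀ t ∈ J, t0 + t ∈ I) → FFlow I A θ →
      FFlow J (fun t => A (t0 + t)) (fun t => θ (t0 + t)))

/-- PACKET M-CMB (0.5 h; given MP1, EVS, PRD of Helper47). Comparison of `λ` with a heat solution, abstract.

Proof. `MP1` with `t1 = 0`, every `T1 < T`, `K = 0`, `ε0 = 1`, `f = lam - c • u`: near `0` by `Ini`; `Hop f = Hop lam -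
c • (D u - Lap u) = Hop lam`, and by EVS `Hop lam = (2/n) • ∑ Ric² ≥ 0` (`ev z t` is an algebra homomorphism). -/
def CmbStmt : Prop :=
  ∀ (n : ℕ), 4 ≤ n → ∀ (T : ℝ) (F : FB n T), F.Full → F.IsRF → ∀ (u : F.B) (c : ℝ), F.D u = F.Lap u →
    F.Ini (F.lam - c • u) 0 → ∀ z t, c * F.ev z t u ≤ F.ev z t F.lam

/-- PACKET M-UPB (1 h; given MP3, NRB, BDD, PRD of Helper47). Upper bound for `λ` on a short time interval, abstract.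

Proof. `C2` from NRB (positive). `E := 3 + C2 K`, `c0 = 1/(4 E)`. Let `t ≤ 1/(4 E Q)`, `t < T`. Choose `T1` with
`t ≤ T1 < T`, `T1 ≤ 1/(4EQ)` (`T1 = t`). `L = 3/(4Q) - E tt ∈ B`, on `(0,T1]` `L ≥ 3/(4Q) - 1/(4Q) = 1/(2Q) > 0`.
`MP3` (`K = Unit`) for `f = 1 - lam * L` on `(0,T1]`: near `0`: `lam ≤ 5Q/4` (`Ini` with `ε = Q/4`), `L ≤ 3/(4Q)`, so
`lam L ≤ 15/16`. At a touching point `lam L = 1`: `Hop f = -(L Hop lam + lam Hop L - 2 gg lam L)`, `gg lam L = 0`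
(`H_a tt = 0`), `Hop L = -E`, `Hop lam ≤ 2 lam² + C2 e2 ≤ (2 + C2 K) lam²` (NRB, `lam > 0`), so
`Hop f ≥ -(2 + C2 K) lam (L lam) + E lam = lam > 0`. So `lam < 1/L ≤ 2Q` at `t`. -/
def UpbStmt : Prop :=
  ∀ (n : ℕ), 4 ≤ n → ∃ C2 > 0, ∀ (T : ℝ) (F : FB n T), F.Full → F.IsRF → ∀ (K Q : ℝ), 0 ≤ K → 0 < Q →
    (∀ z t, 0 < F.ev z t F.lam) → (∀ z t, F.ev z t F.e2 ≤ K * F.ev z t F.lam ^ 2) →
    F.Ini (-F.lam) (-Q) → ∀ z (t : TI T), (t : ℝ) ≤ 1 / (4 * (3 + C2 * K) * Q) → F.ev z t F.lam ≤ 2 * Q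

/-- Statement CMP. Comparison of `λ` with a heat solution. -/
def CmpStmt : Prop :=
  ∀ (n : ℕ), 4 ≤ n → ∀ (T c : ℝ) (A θ : ℝ → MF n) (u : ℝ → EE n → ℝ), 0 < T → FFlow (Set.Ico 0 T) A θ →
    HeatOn (Set.Ico 0 T) A θ u → (∀ x, x ≠ 0 → c * u 0 x ≤ lamf (A 0) (θ 0) x) →
    ∀ t, 0 < t → t < T → ∀ x, x ≠ 0 → c * u t x ≤ lamf (A t) (θ t) x

/-- PACKET M-CMP (1.2 h). CMP from the abstract version.

Proof. As HEC (see `Pool.Agent.Helper73.RFn.HecPStmt` and the `n = 3` template `Pool/Agent/Helper73/RF/HEC.lean`). `M` from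
MOD, `JM` of `A, θ` from FJS, `F = M.flB A θ`; FLB: `Full`, `IsRF`, dictionary; `JS` of `u` from HJS; `f = M.em u`: `VI`,
Laplacian from FLB, `D f = Lap f` by `ext` (EM fourth claim and `HeatOn` with the empty word). `Ini (lam - c • f) 0`:
apply the last claim of NRO (`Ini (M.em v) c`) to `v t = lamf (A t) (θ t) - c u t` (`SmFam` by FHM and C8, `JS` by LNK / JSR), and
`M.em v = lam - c • M.em u` (`ext`, dictionary). Evaluate at `z` with `pt z = x/|x|`; homogeneity. -/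
def CmpPStmt : Prop :=
  Goal_MOD → Goal_EM → Goal_LNK → Goal_FLB → Goal_NRO → Goal_C1 → Goal_C8 → CmbStmt → FjsStmt → HjsStmt → JsrStmt →
    FhmStmt → CmpStmt

/-- Statement UPL. Upper bound for `λ` on a short time interval. -/
def UplStmt : Prop :=
  ∀ (n : ℕ) (K : ℝ), 4 ≤ n → 0 ≤ K → ∃ c1 > 0, ∀ (T Q : ℝ) (A θ : ℝ → MF n), 0 < T → 0 < Q →
    FFlow (Set.Ico 0 T) A θ →
    (∀ t, 0 < t → t < T → ∀ x, x ≠ 0 → 0 < lamf (A t) (θ t) x ∧ e2f (A t) (θ t) x ≤ K * lamf (A t) (θ t) x ^ 2) →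
    (∀ x, x ≠ 0 → lamf (A 0) (θ 0) x ≤ Q) →
    ∀ t, 0 < t → t < T → t ≤ c1 / Q → ∀ x, x ≠ 0 → lamf (A t) (θ t) x ≤ 2 * Q

/-- PACKET M-UPL (1.2 h). UPL from the abstract version, as M-CMP.

Proof. `c1 = 1/(4 (3 + C2 K))`. `Ini (-lam) (-Q)`: last claim of NRO for `v t = -lamf (A t) (θ t)`. -/
def UplPStmt : Prop :=
  Goal_MOD → Goal_EM → Goal_LNK → Goal_FLB → Goal_NRO → Goal_C1 → Goal_C8 → UpbStmt → FjsStmt → JsrStmt → FhmStmt →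
    UplStmt

/-- PACKET M-FRZ (1 h). The gradient of a fixed function with respect to the metrics of the flow.

Proof. Fix `x ≠ 0`, `p(t) = ggf (A t) v v x = ∑_a (F_a(t))²`, `F_a(t) = Fdc (A t) a v x = ∑_i A t x a i * ed i v x`. `flA` (word
`[]`): `A t x a i` has derivative `∑_b Rcf a b * A t x b i` within `I = Ico 0 T`, so `F_a' = ∑_b Rcf_ab F_b` and
`p' = 2 ∑_ab Rcf_ab F_a F_b ≥ 2 c p` for `t ∈ [0,t1]`: `∑_a nfc_a F_a = 0` because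
`∑_a nfc (A t) a x * Fdc (A t) a v x = ∑_i (∑_a nfc_a A_ai) ed i v x = ∑_i nn_i ed i v x = 0` (`∑_a nfc_a A_ai = nn_i`: by `nA`
`nfc_a = ∑_j θ_ja x_j/|x|` and `θ A = 1`; `∑_i x_i ∂_i v = 0` is Euler for a `0`-homogeneous differentiable function).
So `t ↦ exp(-2 c t) p(t)` is nondecreasing on `[0,t1]` (`monotoneOn_of_deriv_nonneg`: continuous on `[0,t1]`,
derivative `≥ 0` inside). -/
def FrzStmt : Prop :=
  ∀ (n : ℕ) (T t1 c : ℝ) (A θ : ℝ → MF n) (v : EE n → ℝ) (x : EE n), FFlow (Set.Ico 0 T) A θ → Sm v → x ≠ 0 →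
    0 ≤ t1 → t1 < T →
    (∀ t, 0 ≤ t → t ≤ t1 → ∀ w : Fin (n + 1) → ℝ, ∑ a, nfc (A t) a x * w a = 0 →
      c * ∑ a, w a ^ 2 ≤ ∑ a, ∑ b, Rcf (A t) (θ t) a b x * w a * w b) →
    ggf (A 0) v v x ≤ Real.exp (-(2 * c * t1)) * ggf (A t1) v v x

/-- PACKET M-RLB (0.7 h). Lower Ricci bound for almost constant curvature.

Proof. `Rf a b c b = Ef a b c b + (λ/(n-1)) (P_ac P_bb - P_ab P_bc)`, `P = Pff` symmetric, `∑_b P_bb = n + 1 - ∑ nfc² = n`,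
`∑_b P_ab P_bc = P_ac` (`∑ nfc² = 1`: hypothesis `hn`). So `Rcf_ac = ∑_b Ef_abcb + λ P_ac` and for `w ⊥ nfc`
`∑_ac P_ac w_a w_c = ∑ w_a²`. `|∑_abc Ef_abcb w_a w_c| ≤ ε (n+1) (∑|w_a|)² ≤ ε (n+1)² ∑ w_a²`. -/
def RlbStmt : Prop :=
  ∀ (n : ℕ) (A θ : MF n) (x : EE n) (ε : ℝ), 2 ≤ n → ∑ a, nfc A a x ^ 2 = 1 →
    (∀ a b c d, |Ef A θ a b c d x| ≤ ε) → ∀ w : Fin (n + 1) → ℝ, ∑ a, nfc A a x * w a = 0 →
      (lamf A θ x - ε * ((n : ℝ) + 1) ^ 2) * ∑ a, w a ^ 2 ≤ ∑ a, ∑ b, Rcf A θ a b x * w a * w b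

/-- PACKET M-TRC (1.2 h; given LIP of Helper73/GoalsH, C1, C2 of CoreN). A function that is 1-Lipschitz only on
`{h < R1}`.

Proof. `|∇w|² ≤ 1` on `{h < R1}`, `w ≥ L` on `{R ≤ h < R1}`. Let `ε > 0`. `φ(s) = L - ε + ∫_(L-ε)^s (1 - smoothTransition((r - L + ε)/ε)) dr`:
smooth, `0 ≤ φ' ≤ 1`, `φ(s) = s` for `s ≤ L - ε`, constant for `s ≥ L`, `φ(s) ≤ s`, `φ(L) ≥ L - ε`.
`χ(s) = smoothTransition((R2 - s)/(R2 - R))`, `R2 = (R + R1)/2`: `1` for `s ≤ R`, `0` for `s ≥ R2`. `v = φ(L) + χ(h)(φ(w) - φ(L))` is `Sm`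
(C1). `ed i v = χ'(h) ed i h (φ(w) - φ(L)) + χ(h) φ'(w) ed i w`; the first term vanishes everywhere: `χ'(h) = 0` unless
`R ≤ h < R1` (derivative of a function constant on one side and differentiable), and there `φ(w) = φ(L)`; the second
term vanishes if `h ≥ R1`. So `∑ G⁻¹ e v e v ≤ 1` everywhere and LIP (`L = 1`) gives `v y - v p ≤ gdist G p y`;
`v y = φ(L)`, `v p = φ(w p) ≤ w p` (`h p ≤ R`: `χ = 1`). So `L - ε - w p ≤ gdist G p y`; `ε → 0`. -/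
def TrcStmt : Prop :=
  ∀ (n : ℕ) (G : MF n) (h w : EE n → ℝ) (R R1 L : ℝ) (p : EE n), 1 ≤ n → IsMetric G → Sm h → Sm w → R < R1 →
    (∀ x, x ≠ 0 → h x < R1 → ∑ i, ∑ j, (G x)⁻¹ i j * ed i w x * ed j w x ≤ 1) →
    (∀ x, x ≠ 0 → R ≤ h x → h x < R1 → L ≤ w x) → ‖p‖ = 1 → h p < R →
    ∀ y : EE n, ‖y‖ = 1 → R ≤ h y → L - w p ≤ gdist G p y

/-- PACKET M-INT (0.5 h). One variable: derivative bounded by `B t^(-1/2)`.

Proof. For `0 < s ≤ t < Θ`: `|g t - g s| ≤ ∫_s^t B r^(-1/2) dr = 2B(√t - √s)`: both `g r - 2B√r` is antitone and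
`g r + 2B√r` is monotone on `[s,t]` (derivative signs). `s → 0` with continuity of `g` at `0` within `[0,Θ)`. -/
def IntStmt : Prop :=
  ∀ (g g' : ℝ → ℝ) (Θ B : ℝ), 0 ≤ B → (∀ t ∈ Set.Ico 0 Θ, HasDerivWithinAt g (g' t) (Set.Ico 0 Θ) t) →
    (∀ t, 0 < t → t < Θ → |g' t| ≤ B / Real.sqrt t) → ∀ t, 0 ≤ t → t < Θ → |g t - g 0| ≤ 2 * B * Real.sqrt t

/-- Statement ONB: one time of a good flow that blows up (OneStmt with the hypothesis `Blow`). -/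
def OnbStmt : Prop :=
  ∀ (n : ℕ) (C σ : ℝ), 4 ≤ n → 1 ≤ C → 0 < σ → σ ≤ 1 → ∃ C' : ℝ, 1 ≤ C' ∧
    ∀ (T l0 : ℝ) (A θ : ℝ → MF n), 0 < T → 0 < l0 → FFlow (Set.Ico 0 T) A θ →
      Good T l0 C σ A θ → Blow T A θ → ∀ t Q, 0 < t → t < T → (∀ x, x ≠ 0 → lamf (A t) (θ t) x ≤ Q) →
      (∃ p, p ≠ 0 ∧ lamf (A t) (θ t) p = Q) → C' ≤ t * Q →
      (∀ x, x ≠ 0 → (1 - C' * (t * Q) ^ (-(σ / 2))) * Q ≤ lamf (A t) (θ t) x
        ∧ ∀ a b c d, |Ef (A t) (θ t) a b c d x| ≤ C' * (t * Q) ^ (-(σ / 2)) * Q)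
      ∧ ∀ x y : EE n, ‖x‖ = 1 → ‖y‖ = 1 → gdist (gOf (θ t)) x y ≤ C' / Real.sqrt Q

/-- PACKET M-LPB (0.7 h; given QCTn of Helper64). The proof of `Pool.Agent.Helper62.RFn.LPn.lpn` with `OnbStmt` instead of
`OneStmt`: the hypothesis `Blow T A θ` is available in `LpStmt`, pass it to every use of ONE. -/
def LpbStmt : Prop := OnbStmt → LpStmt

/-- PACKET M-ONB (2 h, helper19). Assembly.

Proof. `y = t0 Q`, `η = 2 sqrt C y^(-σ/2)`. `s3` with `e = C`: `T - t0 ≥ 1/((2+C²)Q)`. Shift the flow by `t0` (SHF). UPL with `K = C`: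
`λ ≤ 2Q` for `t ≤ c1/Q`. `c2 = min c1 (1/(2(2+C²)))`, `Θ = c2/Q`. `p3` with `2Q`: `|Ef| ≤ sqrt e2f ≤ η Q` on `[0,Θ]`,
`ggf λ λ ≤ η² Q³` at `t0`. HEC on `Ico 0 Θ` with `A0 = 2 c2`: `Bc`; `κ = 2 sqrt (Bc c2)`: for `f` with `ggf f f ≤ 1` at `t0` the
heat solution satisfies `ggf (u t) ≤ 1`, `|u t - f| ≤ κ/sqrt Q` (INT). CMP with `f = λ(t0)/(η Q^(3/2))`:
`λ(t0+t) ≥ λ(t0) - η κ Q`. `λ0 = exp(-c2/4)`, `K0 = 2κ/(1-λ0) + 1`, `R = K0/sqrt Q`, `R1 = 2R`, `h = (Q - λ(t0))/(η Q^(3/2))`. If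
`η (2K0 + κ + (n+1)²) ≤ 1/2`: on `{h < R1}` `λ(t0+t) - (n+1)² η Q ≥ Q/2`, so by RLB and FRZ (`c = Q/2`, `t1 = Θ/2`)
`ggf (A t0) v v ≤ λ0² ggf (A (t0+t1)) v v` there. (A) If `S = {h ≥ R}` has a unit vector: `dS = inf gdist p` over `S`, `dS ≥ R`
(LIP for `h`); SMO for `p`, heat flow `v = u(t1)`, TRC with `w = v/λ0`, `L = (dS - ε - κ/sqrt Q)/λ0`: `L - w p ≤ dS`,
so `dS (1 - λ0) ≤ 2κ/sqrt Q`, contradiction. (B) LIP with `L = λ0` for `v`, SMO at `x`: `gdist x y (1 - λ0) ≤ 2κ/sqrt Q`. -/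
def OnbPStmt : Prop :=
  HeatExStmt → HecStmt → SmoStmt → LipStmt → DbdStmt → FhmStmt → Goal_C1 → ShfStmt → CmpStmt → UplStmt → FrzStmt →
    RlbStmt → TrcStmt → IntStmt → OnbStmt

end Pool.Agent.Helper19.RFn
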