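import Pool.Agent.Helper19.RFn.ONBb

/-!
Project RFn, packet M-ONB: the local Myers theorem along the flow, assembly.
-/

set_option autoImplicit false

open Finset Set Pool.Agent.Helper47.RFn Pool.Agent.Helper73.RFn

namespace Pool.Agent.Helper19.RFn.ONB

/-- the smallness of `η` -/
theorem eta_small {C D σ y : ℝ} (hC : 1 ≤ C) (hD : 0 < D) (hσ : 0 < σ)
    (hy : (4 * Real.sqrt C * D) ^ (2 / σ) ≤ y) :
    2 * Real.sqrt C * y ^ (-(σ / 2)) * D ≤ 1 / 2 := by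
  have hsC : 0 < Real.sqrt C := Real.sqrt_pos.mpr (by linarith)
  have hB : 0 < 4 * Real.sqrt C * D := by positivity
  have hy0 : 0 < y := lt_of_lt_of_le (Real.rpow_pos_of_pos hB _) hy
  have h1 : 4 * Real.sqrt C * D ≤ y ^ (σ / 2) := by
    have h2 : ((4 * Real.sqrt C * D) ^ (2 / σ)) ^ (σ / 2) = 4 * Real.sqrt C * D := by
      rw [← Real.rpow_mul hB.le]
      have : 2 / σ * (σ / 2) = 1 := by field_simp
      rw [this, Real.rpow_one]
    rw [← h2]
    exact Real.rpow_le_rpow (by positivity) hy (by positivity)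
  have h3 : y ^ (-(σ / 2)) = (y ^ (σ / 2))⁻¹ := Real.rpow_neg hy0.le _
  have h4 : 0 < y ^ (σ / 2) := Real.rpow_pos_of_pos hy0 _
  rw [h3]
  have h5 : 2 * Real.sqrt C * (y ^ (σ / 2))⁻¹ * D = (2 * Real.sqrt C * D) / y ^ (σ / 2) := by
    rw [div_eq_mul_inv]; ring
  rw [h5, div_le_iff₀ h4]
  linarith

theorem onb (hHex : HeatExStmt) (hHecS : HecStmt) (hSmo : SmoStmt) (hLip : LipStmt) (hDbd : DbdStmt)
    (hFhm : FhmStmt) (hShf : ShfStmt) (hCmp : CmpStmt) (hUpl : UplStmt) (hFrz : FrzStmt) (hRlb : RlbStmt)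
    (hTrc : TrcStmt) (hInt : IntStmt) : OnbStmt := by
  intro n C σ hn hC hσ hσ1
  obtain ⟨c1, hc1, hUp⟩ := hUpl n C hn (by linarith)
  have hSpos : 0 < 2 + C * C := by nlinarith
  set c2 : ℝ := min c1 (1 / (2 * (2 + C * C))) with hc2
  have hc20 : 0 < c2 := lt_min hc1 (by positivity)
  have hc21 : c2 ≤ c1 := min_le_left _ _
  have hc22 : c2 ≤ 1 / (2 * (2 + C * C)) := min_le_right _ _
  obtain ⟨Bc, hBc, hHec⟩ := hHecS n C (2 * c2) hn (by linarith) (by linarith)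
  set κ : ℝ := 2 * Real.sqrt Bc * Real.sqrt c2 with hκ
  have hκ0 : 0 ≤ κ := by positivity
  set l : ℝ := Real.exp (-(c2 / 4)) with hl
  have hl0 : 0 < l := Real.exp_pos _
  have hl1 : l < 1 := by rw [hl, Real.exp_lt_one_iff]; linarith
  have hl1' : 0 < 1 - l := by linarith
  set K0 : ℝ := 2 * κ / (1 - l) + 1 with hK0
  have hK01 : 1 ≤ K0 := by
    have : 0 ≤ 2 * κ / (1 - l) := by positivity
    linarith
  set D : ℝ := 2 * K0 + κ + ((n : ℝ) + 1) ^ 2 with hD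
  have hD0 : 0 < D := by positivity
  have hsC : 1 ≤ Real.sqrt C := Real.one_le_sqrt.2 hC
  have hsC0 : 0 < Real.sqrt C := by linarith
  set C' : ℝ := max (max C (2 * K0 * Real.sqrt C)) (max (2 * κ / (1 - l)) ((4 * Real.sqrt C * D) ^ (2 / σ)))
    with hC'
  have d1 : C ≤ C' := (le_max_left _ _).trans (le_max_left _ _)
  have d2 : 2 * K0 * Real.sqrt C ≤ C' := (le_max_right _ _).trans (le_max_left _ _)
  have d3 : 2 * κ / (1 - l) ≤ C' := (le_max_left _ _).trans (le_max_right _ _)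
  have d4 : (4 * Real.sqrt C * D) ^ (2 / σ) ≤ C' := (le_max_right _ _).trans (le_max_right _ _)
  refine ⟨C', hC.trans d1, ?_⟩
  intro T l0 A θ hT hl00 hF hG hB t0 Q ht0 ht0T hQ hex hy
  obtain ⟨p0, hp0, hp0Q⟩ := hex
  have hQ0 : 0 < Q := by
    have := (hG.p1 t0 ht0.le ht0T p0 hp0).1
    linarith
  set y : ℝ := t0 * Q with hyd
  have hy0 : 0 < y := mul_pos ht0 hQ0
  have hsQ : 0 < Real.sqrt Q := Real.sqrt_pos.mpr hQ0
  set η : ℝ := 2 * Real.sqrt C * y ^ (-(σ / 2)) with hη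
  have hyσ : 0 < y ^ (-(σ / 2)) := Real.rpow_pos_of_pos hy0 _
  have hη0 : 0 < η := by positivity
  have hηD : η * D ≤ 1 / 2 := eta_small hC hD0 hσ (d4.trans hy)
  have hη2 : η ^ 2 = 4 * (C * y ^ (-σ)) := by
    have h1 : (y ^ (-(σ / 2))) ^ 2 = y ^ (-σ) := by
      rw [← Real.rpow_natCast, ← Real.rpow_mul hy0.le]
      congr 1
      push_cast
      ring
    rw [hη, mul_pow, mul_pow, h1, Real.sq_sqrt (by linarith)]; ring
  -- length of the interval
  have hTt : 0 < T - t0 := by linarith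
  have hs3 := hG.s3 t0 Q C ht0 ht0T hQ0 (by linarith) hQ
    (fun t h1 h2 x hx => hG.p2 t (lt_of_lt_of_le ht0 h1) h2 x hx) hB
  set Θ : ℝ := c2 / Q with hΘ
  have hΘ0 : 0 < Θ := div_pos hc20 hQ0
  have hΘT : Θ < T - t0 := by
    rw [div_le_iff₀ (mul_pos hSpos hTt)] at hs3
    rw [hΘ, div_lt_iff₀ hQ0]
    have h1 : c2 * (2 * (2 + C * C)) ≤ 1 := by
      rw [le_div_iff₀ (by positivity)] at hc22
      exact hc22
    have h2 : 1 ≤ (2 + C * C) * ((T - t0) * Q) := by linarith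
    have h3 : (2 + C * C) * (2 * c2) ≤ (2 + C * C) * ((T - t0) * Q) := by linarith
    have h4 := le_of_mul_le_mul_left h3 hSpos
    linarith
  -- shifted flows
  set At : ℝ → MF n := fun t => A (t0 + t) with hAt
  set θt : ℝ → MF n := fun t => θ (t0 + t) with hθt
  have hA0 : At 0 = A t0 := by simp [hAt]
  have hθ0 : θt 0 = θ t0 := by simp [hθt]
  have hF1 : FFlow (Set.Ico 0 (T - t0)) At θt :=
    (hShf n A θ (fun _ _ => 0) (Set.Ico 0 T) (Set.Ico 0 (T - t0))).2.2 t0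
      (fun t ht => ⟨by linarith [ht.1], by linarith [ht.2]⟩) hF
  have hF2 : FFlow (Set.Icc 0 Θ) At θt :=
    (hShf n A θ (fun _ _ => 0) (Set.Ico 0 T) (Set.Icc 0 Θ)).2.2 t0
      (fun t ht => ⟨by linarith [ht.1], by linarith [ht.2]⟩) hF
  have hF3 : FFlow (Set.Ico 0 Θ) At θt :=
    (hShf n A θ (fun _ _ => 0) (Set.Ico 0 T) (Set.Ico 0 Θ)).2.2 t0
      (fun t ht => ⟨by linarith [ht.1], by linarith [ht.2]⟩) hF
  -- upper bound
  have hup : ∀ t, 0 ≤ t → t ≤ Θ → ∀ x, x ≠ 0 → lamf (At t) (θt t) x ≤ 2 * Q := by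
    intro t h0 h1 x hx
    rcases h0.lt_or_eq with h0' | h0'
    · refine hUp (T - t0) Q At θt hTt hQ0 hF1 ?_ ?_ t h0' (by linarith) ?_ x hx
      · intro s hs0 hs1 z hz
        have e1 := (hG.p1 (t0 + s) (by linarith) (by linarith) z hz).1
        have e2 := hG.p2 (t0 + s) (by linarith) (by linarith) z hz
        exact ⟨by simp only [hAt, hθt]; linarith, e2⟩
      · intro z hz
        rw [hA0, hθ0]
        exact hQ z hz
      · calc t ≤ Θ := h1
          _ ≤ c1 / Q := by rw [hΘ]; exact div_le_div_of_nonneg_right hc21 hQ0.le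
    · rw [← h0', hA0, hθ0]
      linarith [hQ x hx]
  -- bounds for `Good.p1`
  have hp1 : ∀ t, 0 ≤ t → t ≤ Θ → ∀ x, x ≠ 0 → l0 ≤ lamf (At t) (θt t) x ∧
      ∀ a b c d, |Rf (At t) (θt t) a b c d x| ≤ C * lamf (At t) (θt t) x := by
    intro t h0 h1 x hx
    exact hG.p1 (t0 + t) (by linarith) (by linarith) x hx
  have hhb : ∀ t, 0 < t → t < Θ → ∀ x, x ≠ 0 → l0 ≤ lamf (At t) (θt t) x
        ∧ (∀ a b c d, |Rf (At t) (θt t) a b c d x| ≤ C * lamf (At t) (θt t) x)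
        ∧ t * lamf (At t) (θt t) x ≤ 2 * c2 := by
    intro t h0 h1 x hx
    refine ⟨(hp1 t h0.le h1.le x hx).1, (hp1 t h0.le h1.le x hx).2, ?_⟩
    have e1 := hup t h0.le h1.le x hx
    have e2 : t * lamf (At t) (θt t) x ≤ Θ * (2 * Q) :=
      mul_le_mul h1.le e1 (by linarith [(hp1 t h0.le h1.le x hx).1]) hΘ0.le
    have e3 : Θ * (2 * Q) = 2 * c2 := by rw [hΘ]; field_simp
    linarith
  -- `Ef`
  have hEf : ∀ t, 0 ≤ t → t ≤ Θ → ∀ x, x ≠ 0 → ∀ a b c d, |Ef (At t) (θt t) a b c d x| ≤ η * Q := by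
    intro t h0 h1 x hx a b c d
    have hyt : y ≤ (t0 + t) * (2 * Q) := by
      rw [hyd]
      nlinarith [mul_nonneg h0 hQ0.le, mul_pos ht0 hQ0]
    have e1 := (hG.p3 (t0 + t) (2 * Q) (by linarith) (by linarith) (hup t h0 h1)
      (by linarith [d1.trans hy]) x hx).2
    have e2 : ((t0 + t) * (2 * Q)) ^ (-σ) ≤ y ^ (-σ) :=
      Real.rpow_le_rpow_of_nonpos hy0 hyt (by linarith)
    have e3 : e2f (At t) (θt t) x ≤ (η * Q) ^ 2 := by
      calc e2f (At t) (θt t) x ≤ C * ((t0 + t) * (2 * Q)) ^ (-σ) * (2 * Q) ^ 2 := e1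
        _ ≤ C * y ^ (-σ) * (2 * Q) ^ 2 := by
            refine mul_le_mul_of_nonneg_right ?_ (by positivity)
            exact mul_le_mul_of_nonneg_left e2 (by linarith)
        _ = (η * Q) ^ 2 := by rw [mul_pow η Q 2, hη2]; ring
    exact abs_le_of_sq_le_sq ((ef_sq_le _ _ a b c d x).trans e3) (by positivity)
  have hEf0 : ∀ x, x ≠ 0 → ∀ a b c d, |Ef (A t0) (θ t0) a b c d x| ≤ Real.sqrt C * y ^ (-(σ / 2)) * Q := by
    intro x hx a b c d
    have e1 := (hG.p3 t0 Q ht0 ht0T hQ (by linarith [d1.trans hy]) x hx).2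
    have e3 : e2f (A t0) (θ t0) x ≤ (Real.sqrt C * y ^ (-(σ / 2)) * Q) ^ 2 := by
      calc e2f (A t0) (θ t0) x ≤ C * y ^ (-σ) * Q ^ 2 := e1
        _ = (Real.sqrt C * y ^ (-(σ / 2)) * Q) ^ 2 := by
            have : (Real.sqrt C * y ^ (-(σ / 2))) ^ 2 = C * y ^ (-σ) := by
              have h3 : η = 2 * (Real.sqrt C * y ^ (-(σ / 2))) := by rw [hη]; ring
              have h4 : η ^ 2 = 4 * (Real.sqrt C * y ^ (-(σ / 2))) ^ 2 := by rw [h3]; ring
              linarith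
            rw [mul_pow, this]
    exact abs_le_of_sq_le_sq ((ef_sq_le _ _ a b c d x).trans e3) (by positivity)
  -- the metric at time `t0`
  have hfrm : ∀ t, 0 ≤ t → t ≤ Θ → Frm (At t) (θt t) := fun t h0 h1 => frm_of_flow hF2 ⟨h0, h1⟩
  have hfrm0 : Frm (A t0) (θ t0) := by
    have := hfrm 0 (le_refl _) hΘ0.le
    rwa [hA0, hθ0] at this
  obtain ⟨hGm, -, -, -, -, hlamSm, -, -, -, -, hgg, -, -, -, -⟩ := (hFhm n).1 (A t0) (θ t0) hfrm0
  set lam : EE n → ℝ := lamf (A t0) (θ t0) with hlam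
  set m : ℝ := η * (Q * Real.sqrt Q) with hm
  have hm0 : 0 < m := by positivity
  have hggl : ∀ x, x ≠ 0 → ggf (A t0) lam lam x ≤ m ^ 2 := by
    intro x hx
    have e1 := (hG.p3 t0 Q ht0 ht0T hQ (by linarith [d1.trans hy]) x hx).1
    have e2 : m ^ 2 = 4 * (C * y ^ (-σ)) * Q ^ 3 := by
      rw [hm, mul_pow, hη2, mul_pow, Real.sq_sqrt hQ0.le]; ring
    have e3 : 0 ≤ C * y ^ (-σ) * Q ^ 3 := by positivity
    calc ggf (A t0) lam lam x ≤ C * y ^ (-σ) * Q ^ 3 := e1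
      _ ≤ m ^ 2 := by rw [e2]; linarith
  have hmi : m⁻¹ ^ 2 * m ^ 2 = 1 := by field_simp
  have hsmall : ∀ t, 0 ≤ t → t < Θ → 2 * Real.sqrt Bc * Real.sqrt t ≤ κ / Real.sqrt Q := by
    intro t h0 h1
    have e1 : Real.sqrt t ≤ Real.sqrt c2 / Real.sqrt Q := by
      rw [← Real.sqrt_div hc20.le]
      exact Real.sqrt_le_sqrt (by rw [← hΘ]; exact h1.le)
    calc 2 * Real.sqrt Bc * Real.sqrt t ≤ 2 * Real.sqrt Bc * (Real.sqrt c2 / Real.sqrt Q) :=
          mul_le_mul_of_nonneg_left e1 (by positivity)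
      _ = κ / Real.sqrt Q := by rw [hκ]; ring
  have hn2 : 2 ≤ n := by omega
  -- lower bound for `λ` on the interval
  have hlow : ∀ t, 0 ≤ t → t < Θ → ∀ x, x ≠ 0 → lam x - η * κ * Q ≤ lamf (At t) (θt t) x := by
    intro t h0 h1 x hx
    rcases h0.lt_or_eq with h0' | h0'
    · obtain ⟨u, hu, hu0, -, -, hub⟩ := heat hn2 hHex hShf hInt C (2 * c2) Bc hBc hHec Θ l0 At θt hΘ0 hl00 hF2
        hhb (fun x => m⁻¹ * lam x) (sm_smul hlamSm _) (fun x hx => by
          rw [hA0, ggf_smul _ hlamSm, ← hmi]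
          exact mul_le_mul_of_nonneg_left (hggl x hx) (by positivity))
      have e1 := hCmp n hn Θ m At θt u hΘ0 hF3 hu (fun z hz => by
        rw [hu0 z hz, hA0, hθ0]
        rw [← mul_assoc, mul_inv_cancel₀ hm0.ne', one_mul]) t h0' h1 x hx
      have e2 := (abs_le.mp ((hub t h0 h1 x hx).trans (hsmall t h0 h1))).1
      have e3 : m * (m⁻¹ * lam x - κ / Real.sqrt Q) ≤ m * u t x :=
        mul_le_mul_of_nonneg_left (by linarith) hm0.le
      have e4 : m * (m⁻¹ * lam x - κ / Real.sqrt Q) = lam x - η * κ * Q := by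
        rw [mul_sub, ← mul_assoc, mul_inv_cancel₀ hm0.ne', one_mul, hm]
        field_simp
      linarith
    · rw [← h0', hA0, hθ0]
      have : 0 ≤ η * κ * Q := by positivity
      linarith
  -- the function `h`
  set h : EE n → ℝ := fun x => m⁻¹ * (Q - lam x) with hh
  have hhSm : Sm h := sm_smul (sm_sub (sm_const Q) hlamSm) _
  have hh1 : ∀ x, x ≠ 0 → ∑ i, ∑ j, (gOf (θ t0) x)⁻¹ i j * ed i h x * ed j h x ≤ 1 := by
    intro x hx
    rw [← (hgg h h hhSm hhSm).2 x, hh, ggf_aff _ hlamSm, ← hmi]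
    exact mul_le_mul_of_nonneg_left (hggl x hx) (by positivity)
  set R : ℝ := K0 / Real.sqrt Q with hR
  have hR0 : 0 < R := by positivity
  have hmR : ∀ x, ∀ K : ℝ, h x < K / Real.sqrt Q → Q - lam x < η * K * Q := by
    intro x K hx
    have e1 : m * (m⁻¹ * (Q - lam x)) < m * (K / Real.sqrt Q) := mul_lt_mul_of_pos_left hx hm0
    rw [← mul_assoc, mul_inv_cancel₀ hm0.ne', one_mul] at e1
    have e2 : m * (K / Real.sqrt Q) = η * K * Q := by rw [hm]; field_simp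
    linarith
  -- gradient comparison
  have hfz : ∀ v : EE n → ℝ, Sm v → ∀ x, x ≠ 0 → h x < 2 * R →
      ggf (A t0) v v x ≤ l ^ 2 * ggf (At (Θ / 2)) v v x := by
    intro v hv x hx hxR
    have e0 := hFrz n Θ (Θ / 2) (Q / 2) At θt v x hF3 hv hx (by linarith) (by linarith) ?_
    · rw [hA0] at e0
      have e1 : Real.exp (-(2 * (Q / 2) * (Θ / 2))) = l ^ 2 := by
        rw [hl, ← Real.exp_nat_mul]
        congr 1
        rw [hΘ]
        field_simp
        push_cast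
        ring
      rw [e1] at e0
      exact e0
    · intro t h0 h1 w hw
      have ht1 : t < Θ := by linarith
      have hnf := ((hFhm n).1 (At t) (θt t) (hfrm t h0 ht1.le)).2.2.2.2.2.2.2.2.2.2.2.1 x hx
      have e1 := hRlb n (At t) (θt t) x (η * Q) hn2 hnf (hEf t h0 ht1.le x hx) w hw
      refine le_trans (mul_le_mul_of_nonneg_right ?_ (Finset.sum_nonneg fun _ _ => sq_nonneg _)) e1
      have e2 := hlow t h0 ht1 x hx
      have e3 := hmR x (2 * K0) (by rw [show 2 * K0 / Real.sqrt Q = 2 * R by rw [hR]; ring]; exact hxR)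
      have e4 : η * D * Q ≤ 1 / 2 * Q := mul_le_mul_of_nonneg_right hηD hQ0.le
      rw [hD] at e4
      nlinarith
  -- the smoothing package
  have SP : ∀ q : EE n, ‖q‖ = 1 → ∀ ε > 0, ∃ v : EE n → ℝ, Sm v ∧
      (∀ x, x ≠ 0 → h x < 2 * R → ∑ i, ∑ j, (gOf (θ t0) x)⁻¹ i j * ed i v x * ed j v x ≤ l ^ 2) ∧
      ∀ x : EE n, ‖x‖ = 1 → |v x - gdist (gOf (θ t0)) q x| ≤ ε + κ / Real.sqrt Q := by
    intro q hq ε hε
    obtain ⟨f, hf, hf1, hf2⟩ := hSmo n (gOf (θ t0)) q ε (by omega) hGm hq hε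
    obtain ⟨u, -, -, huS, hug, hub⟩ := heat hn2 hHex hShf hInt C (2 * c2) Bc hBc hHec Θ l0 At θt hΘ0 hl00 hF2
      hhb f hf (fun x hx => by
        rw [hA0, (hgg f f hf hf).2 x]; exact hf1 x hx)
    have hΘ2 : 0 < Θ / 2 := by linarith
    have hΘ3 : Θ / 2 < Θ := by linarith
    refine ⟨u (Θ / 2), huS _ hΘ2.le hΘ3, ?_, ?_⟩
    · intro x hx hxR
      have hv := huS _ hΘ2.le hΘ3
      rw [← (hgg _ _ hv hv).2 x]
      refine (hfz _ hv x hx hxR).trans ?_
      calc l ^ 2 * ggf (At (Θ / 2)) (u (Θ / 2)) (u (Θ / 2)) x ≤ l ^ 2 * 1 :=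
            mul_le_mul_of_nonneg_left (hug _ hΘ2 hΘ3 x hx) (by positivity)
        _ = l ^ 2 := mul_one _
    · intro x hx
      have e1 := (hub _ hΘ2.le hΘ3 x (ne_of_unit hx)).trans (hsmall _ hΘ2.le hΘ3)
      have e2 := hf2 x hx
      have e3 := abs_sub_le (u (Θ / 2) x) (f x) (gdist (gOf (θ t0)) q x)
      linarith
  -- apply `geo`
  have hp : ‖(‖p0‖)⁻¹ • p0‖ = 1 := norm_unit hp0
  have hhp : h ((‖p0‖)⁻¹ • p0) = 0 := by
    rw [hom_unit hhSm.hom hp0]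
    simp only [hh]
    rw [hp0Q, sub_self, mul_zero]
  have hRk : 2 * (κ / Real.sqrt Q) < (1 - l) * R := by
    have e1 : (1 - l) * R = (2 * κ + (1 - l)) / Real.sqrt Q := by
      rw [hR, hK0]
      field_simp
    rw [e1, ← mul_div_assoc]
    exact div_lt_div_of_pos_right (by linarith) hsQ
  obtain ⟨hA, hBd⟩ := geo hLip hDbd hTrc (by omega) (gOf (θ t0)) hGm h hhSm hh1 l (κ / Real.sqrt Q) R hl0 hl1
    hR0 hRk _ hp hhp SP
  refine ⟨?_, ?_⟩
  · intro x hx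
    refine ⟨?_, ?_⟩
    · have e1 := hmR x K0 (hA x hx)
      have e2 : η * K0 * Q ≤ C' * y ^ (-(σ / 2)) * Q := by
        refine mul_le_mul_of_nonneg_right ?_ hQ0.le
        calc η * K0 = 2 * K0 * Real.sqrt C * y ^ (-(σ / 2)) := by rw [hη]; ring
          _ ≤ C' * y ^ (-(σ / 2)) := mul_le_mul_of_nonneg_right d2 hyσ.le
      have e3 : (1 - C' * y ^ (-(σ / 2))) * Q = Q - C' * y ^ (-(σ / 2)) * Q := by ring
      rw [e3]
      linarith
    · intro a b c d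
      refine (hEf0 x hx a b c d).trans ?_
      refine mul_le_mul_of_nonneg_right ?_ hQ0.le
      refine mul_le_mul_of_nonneg_right ?_ hyσ.le
      refine le_trans ?_ d2
      nlinarith
  · intro x z hx hz
    have e1 := hBd x z hx hz
    have e2 : gdist (gOf (θ t0)) x z ≤ 2 * κ / (1 - l) / Real.sqrt Q := by
      have e3 : gdist (gOf (θ t0)) x z ≤ 2 * (κ / Real.sqrt Q) / (1 - l) := by
        rw [le_div_iff₀ hl1']
        linarith
      calc gdist (gOf (θ t0)) x z ≤ 2 * (κ / Real.sqrt Q) / (1 - l) := e3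
        _ = 2 * κ / (1 - l) / Real.sqrt Q := by field_simp
    exact e2.trans (div_le_div_of_nonneg_right d3 hsQ.le)

/-- packet M-ONB -/
theorem onbP : OnbPStmt := fun hHex hHec hSmo hLip hDbd hFhm _ hShf hCmp hUpl hFrz hRlb hTrc hInt =>
  onb hHex hHec hSmo hLip hDbd hFhm hShf hCmp hUpl hFrz hRlb hTrc hInt

end Pool.Agent.Helper19.RFn.ONB
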