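import Pool.Agent.Helper47.RFn.AsmN
import Pool.Agent.Helper64.RFn.MainN
import Pool.Agent.Helper19.RFn.ONB
import Pool.Agent.Helper19.RFn.LPB
import Pool.Agent.Helper8.RFn.SHF
import Pool.Agent.Helper69.RFn.CMB
import Pool.Agent.Helper40.RFn.UPB
import Pool.Agent.Helper90.RFn.CMP
import Pool.Agent.Helper16.RFn.UPL
import Pool.Agent.Helper54.RFn.FRZ
import Pool.Agent.Helper60.RFn.RLB
import Pool.Agent.Helper39.RFn.TRC
import Pool.Agent.Helper2.RFn.MINT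
import Pool.Agent.Helper75.RFn.FHM
import Pool.Agent.Helper62.RFn.JSR
import Pool.Agent.Helper32.RFn.SMO
import Pool.Agent.Helper32.RFn.LIP
import Pool.Agent.Helper64.RFn.DBD

/-!
Project RFn: the local Myers theorem along the flow and `LpStmt`, assembled.
-/

set_option autoImplicit false

namespace Pool.Agent.Helper19.RFn

open Pool.Agent.Helper47.RFn Pool.Agent.Helper47.RFn.Asm Pool.Agent.Helper73.RFn Pool.Agent.Helper64.RFn

theorem fhm_m : FhmStmt := Pool.Agent.Helper75.RFn.FHM.fhm cC3 cC8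
theorem jsr_m : JsrStmt := Pool.Agent.Helper62.RFn.JSR.jsr cC1
theorem dbd_m : DbdStmt := Pool.Agent.Helper64.RFn.DBD.dbd
theorem smo_m : SmoStmt := Pool.Agent.Helper32.RFn.SMO.smo dbd_m cC1 cC6
theorem lip_m : LipStmt := Pool.Agent.Helper32.RFn.LIP.lip cC6 cC7
theorem shf_m : ShfStmt := Pool.Agent.Helper8.RFn.shf
theorem cmb_m : CmbStmt := Pool.Agent.Helper69.RFn.cmb cMP1 cEVS cPRD
theorem upb_m : UpbStmt := Pool.Agent.Helper40.RFn.upb cMP3 cNRB cBDD cPRD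
theorem frz_m : FrzStmt := Pool.Agent.Helper54.RFn.frz
theorem rlb_m : RlbStmt := Pool.Agent.Helper60.RFn.rlb
theorem trc_m : TrcStmt := Pool.Agent.Helper39.RFn.Trc.trc lip_m cC1 cC2
theorem int_m : IntStmt := Pool.Agent.Helper2.RFn.int

theorem cmp_m (hMOD : Goal_MOD) (hEM : Goal_EM) (hLNK : Goal_LNK) (hFLB : Goal_FLB) (hNRO : Goal_NRO)
    (hFJS : FjsStmt) (hHJS : HjsStmt) : CmpStmt :=
  Pool.Agent.Helper90.RFn.cmp hMOD hEM hLNK hFLB hNRO cC1 cC8 cmb_m hFJS hHJS jsr_m fhm_m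

theorem upl_m (hMOD : Goal_MOD) (hEM : Goal_EM) (hLNK : Goal_LNK) (hFLB : Goal_FLB) (hNRO : Goal_NRO)
    (hFJS : FjsStmt) : UplStmt :=
  Pool.Agent.Helper16.RFn.UPL.upl hMOD hEM hLNK hFLB hNRO cC1 cC8 upb_m hFJS jsr_m fhm_m

theorem onb_m (hMOD : Goal_MOD) (hEM : Goal_EM) (hLNK : Goal_LNK) (hFLB : Goal_FLB) (hNRO : Goal_NRO)
    (hFJS : FjsStmt) (hHJS : HjsStmt) (hHex : HeatExStmt) (hHec : HecStmt) : OnbStmt :=
  ONB.onb hHex hHec smo_m lip_m dbd_m fhm_m shf_m (cmp_m hMOD hEM hLNK hFLB hNRO hFJS hHJS)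
    (upl_m hMOD hEM hLNK hFLB hNRO hFJS) frz_m rlb_m trc_m int_m

/-- `LpStmt` from the existence of heat solutions and the flow dictionary. -/
theorem lp_m (hMOD : Goal_MOD) (hEM : Goal_EM) (hLNK : Goal_LNK) (hFLB : Goal_FLB) (hNRO : Goal_NRO)
    (hFJS : FjsStmt) (hHJS : HjsStmt) (hHex : HeatExStmt) (hHec : HecStmt) : LpStmt :=
  LPB.lpb qct_d (onb_m hMOD hEM hLNK hFLB hNRO hFJS hHJS hHex hHec)

end Pool.Agent.Helper19.RFn
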