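import Pool.Agent.Helper19.RFn.GoalsM
import Pool.Agent.Helper90.RFn.C1
import Pool.Agent.Helper8.RFn.C2

/-!
Project RFn, assembly M-ONB, part a: auxiliary facts.
-/

set_option autoImplicit false

open Finset Set Pool.Agent.Helper47.RFn Pool.Agent.Helper73.RFn

namespace Pool.Agent.Helper19.RFn.ONB

theorem c1d : Goal_C1 := Pool.Agent.Helper90.RFn.goal_C1
theorem c2d : Goal_C2 := goal_C2 c1d

variable {n : ℕ}

theorem sm_const (c : ℝ) : Sm (fun _ : EE n => c) := (c1d n).1 c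
theorem sm_sub {f g : EE n → ℝ} (hf : Sm f) (hg : Sm g) : Sm (fun x => f x - g x) := (c1d n).2.2.1 f g hf hg
theorem sm_mul {f g : EE n → ℝ} (hf : Sm f) (hg : Sm g) : Sm (fun x => f x * g x) := (c1d n).2.2.2.1 f g hf hg

theorem sm_smul {f : EE n → ℝ} (hf : Sm f) (k : ℝ) : Sm (fun x => k * f x) := sm_mul (sm_const k) hf

/-- `ed` is local -/
theorem ed_congr {f g : EE n → ℝ} (h : ∀ x, x ≠ 0 → f x = g x) (i : Fin (n + 1)) {x : EE n} (hx : x ≠ 0) :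
    ed i f x = ed i g x := by
  unfold ed pd
  have : f =ᶠ[nhds x] g := by
    filter_upwards [isOpen_compl_singleton.mem_nhds hx] with y hy using h y hy
  rw [this.fderiv_eq]

theorem ggf_congr {A : MF n} {f g : EE n → ℝ} (h : ∀ x, x ≠ 0 → f x = g x) {x : EE n} (hx : x ≠ 0) :
    ggf A f f x = ggf A g g x := by
  unfold ggf Fdc
  simp only [fun i => ed_congr h i hx]

theorem ggf_smul (A : MF n) {f : EE n → ℝ} (hf : Sm f) (k : ℝ) (x : EE n) :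
    ggf A (fun y => k * f y) (fun y => k * f y) x = k ^ 2 * ggf A f f x := by
  unfold ggf
  rw [Finset.mul_sum]
  refine Finset.sum_congr rfl fun a _ => ?_
  have h1 : Fdc A a (fun y => k * f y) x = k * Fdc A a f x := by
    unfold Fdc
    rw [Finset.mul_sum]
    refine Finset.sum_congr rfl fun i _ => ?_
    rw [(c2d n).2.2.2.2.2.1 i k f x hf]; ring
  rw [h1]; ring

theorem ggf_aff (A : MF n) {f : EE n → ℝ} (hf : Sm f) (Q k : ℝ) (x : EE n) :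
    ggf A (fun y => k * (Q - f y)) (fun y => k * (Q - f y)) x = k ^ 2 * ggf A f f x := by
  unfold ggf
  rw [Finset.mul_sum]
  refine Finset.sum_congr rfl fun a _ => ?_
  have h1 : Fdc A a (fun y => k * (Q - f y)) x = -(k * Fdc A a f x) := by
    unfold Fdc
    rw [Finset.mul_sum, ← Finset.sum_neg_distrib]
    refine Finset.sum_congr rfl fun i _ => ?_
    rw [(c2d n).2.2.2.2.2.1 i k _ x (sm_sub (sm_const Q) hf), (c2d n).2.2.1 i _ f x (sm_const Q) hf,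
      (c2d n).1 i Q x]
    ring
  rw [h1]; ring

/-- value at the normalised point -/
theorem hom_unit {f : EE n → ℝ} (hf : Hom0 f) {x : EE n} (hx : x ≠ 0) : f ((‖x‖)⁻¹ • x) = f x :=
  hf _ _ (inv_pos.mpr (norm_pos_iff.mpr hx))

theorem norm_unit {x : EE n} (hx : x ≠ 0) : ‖(‖x‖)⁻¹ • x‖ = 1 := by
  rw [norm_smul, norm_inv, norm_norm, inv_mul_cancel₀ (norm_ne_zero_iff.mpr hx)]

theorem ne_of_unit {x : EE n} (hx : ‖x‖ = 1) : x ≠ 0 := by
  intro h; rw [h, norm_zero] at hx; exact zero_ne_one hx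

theorem ef_sq_le (A θ : MF n) (a b c d : Fin (n + 1)) (x : EE n) :
    Ef A θ a b c d x ^ 2 ≤ e2f A θ x := by
  unfold e2f
  calc Ef A θ a b c d x ^ 2 ≤ ∑ d', Ef A θ a b c d' x ^ 2 :=
        Finset.single_le_sum (f := fun d' => Ef A θ a b c d' x ^ 2)
          (fun _ _ => sq_nonneg _) (Finset.mem_univ d)
    _ ≤ ∑ c', ∑ d', Ef A θ a b c' d' x ^ 2 :=
        Finset.single_le_sum (f := fun c' => ∑ d', Ef A θ a b c' d' x ^ 2)
          (fun _ _ => Finset.sum_nonneg fun _ _ => sq_nonneg _) (Finset.mem_univ c)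
    _ ≤ ∑ b', ∑ c', ∑ d', Ef A θ a b' c' d' x ^ 2 :=
        Finset.single_le_sum (f := fun b' => ∑ c', ∑ d', Ef A θ a b' c' d' x ^ 2)
          (fun _ _ => Finset.sum_nonneg fun _ _ => Finset.sum_nonneg fun _ _ => sq_nonneg _)
          (Finset.mem_univ b)
    _ ≤ ∑ a', ∑ b', ∑ c', ∑ d', Ef A θ a' b' c' d' x ^ 2 :=
        Finset.single_le_sum (f := fun a' => ∑ b', ∑ c', ∑ d', Ef A θ a' b' c' d' x ^ 2)
          (fun _ _ => Finset.sum_nonneg fun _ _ => Finset.sum_nonneg fun _ _ =>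
            Finset.sum_nonneg fun _ _ => sq_nonneg _)
          (Finset.mem_univ a)

theorem frm_of_flow {I : Set ℝ} {A θ : ℝ → MF n} (h : FFlow I A θ) {t : ℝ} (ht : t ∈ I) :
    Frm (A t) (θ t) where
  inv := h.inv t ht
  smA := fun a i => (h.flA a i).fam.sm t ht
  smt := fun i a => (h.flt i a).fam.sm t ht
  nA := h.nA t ht

/-- the heat solution on `[0, Θ)` for a function with gradient at most one -/
theorem heat (hn : 2 ≤ n) (hHex : HeatExStmt) (hShf : ShfStmt) (hInt : IntStmt) (C A0 Bc : ℝ) (hBc : 0 < Bc)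
    (hHec : ∀ (T l0 : ℝ) (A θ : ℝ → MF n) (u : ℝ → EE n → ℝ), 0 < T → 0 < l0 → FFlow (Set.Ico 0 T) A θ →
      (∀ t, 0 < t → t < T → ∀ x, x ≠ 0 → l0 ≤ lamf (A t) (θ t) x
        ∧ (∀ a b c d, |Rf (A t) (θ t) a b c d x| ≤ C * lamf (A t) (θ t) x)
        ∧ t * lamf (A t) (θ t) x ≤ A0) →
      HeatOn (Set.Ico 0 T) A θ u →
      (∀ x, x ≠ 0 → ggf (A 0) (u 0) (u 0) x ≤ 1) →
      ∀ t, 0 < t → t < T → ∀ x, x ≠ 0 → ggf (A t) (u t) (u t) x ≤ 1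
        ∧ t * Lapf (A t) (θ t) (u t) x ^ 2 ≤ Bc)
    (Θ l0 : ℝ) (A θ : ℝ → MF n) (hΘ : 0 < Θ) (hl0 : 0 < l0) (hF : FFlow (Set.Icc 0 Θ) A θ)
    (hb : ∀ t, 0 < t → t < Θ → ∀ x, x ≠ 0 → l0 ≤ lamf (A t) (θ t) x
        ∧ (∀ a b c d, |Rf (A t) (θ t) a b c d x| ≤ C * lamf (A t) (θ t) x)
        ∧ t * lamf (A t) (θ t) x ≤ A0)
    (f : EE n → ℝ) (hf : Sm f) (hf1 : ∀ x, x ≠ 0 → ggf (A 0) f f x ≤ 1) :
    ∃ u : ℝ → EE n → ℝ, HeatOn (Set.Ico 0 Θ) A θ u ∧ (∀ x, x ≠ 0 → u 0 x = f x) ∧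
      (∀ t, 0 ≤ t → t < Θ → Sm (u t)) ∧
      (∀ t, 0 < t → t < Θ → ∀ x, x ≠ 0 → ggf (A t) (u t) (u t) x ≤ 1) ∧
      (∀ t, 0 ≤ t → t < Θ → ∀ x, x ≠ 0 → |u t x - f x| ≤ 2 * Real.sqrt Bc * Real.sqrt t) := by
  obtain ⟨u, hu, hu0⟩ := hHex n hn Θ A θ hΘ hF f hf
  have hsub : Set.Ico 0 Θ ⊆ Set.Icc 0 Θ := Set.Ico_subset_Icc_self
  have hF' : FFlow (Set.Ico 0 Θ) A θ := (hShf n A θ u (Set.Icc 0 Θ) (Set.Ico 0 Θ)).1 hsub hF
  have hu' : HeatOn (Set.Ico 0 Θ) A θ u := (hShf n A θ u (Set.Icc 0 Θ) (Set.Ico 0 Θ)).2.1 hsub hu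
  have hg0 : ∀ x, x ≠ 0 → ggf (A 0) (u 0) (u 0) x ≤ 1 := fun x hx => by
    rw [ggf_congr hu0 hx]; exact hf1 x hx
  have hH := hHec Θ l0 A θ u hΘ hl0 hF' hb hu' hg0
  refine ⟨u, hu', hu0, fun t h0 h1 => hu'.fam.sm t ⟨h0, h1⟩, fun t h0 h1 x hx => (hH t h0 h1 x hx).1, ?_⟩
  intro t h0 h1 x hx
  have h2 := hInt (fun s => u s x) (fun s => Lapf (A s) (θ s) (u s) x) Θ (Real.sqrt Bc) (Real.sqrt_nonneg _)
    (fun s hs => by
      have := hu'.der [] x hx s hs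
      simpa only [Ew] using this)
    (fun s hs0 hs1 => by
      have h3 := (hH s hs0 hs1 x hx).2
      have hs : 0 < Real.sqrt s := Real.sqrt_pos.mpr hs0
      rw [le_div_iff₀ hs]
      have h4 : |Lapf (A s) (θ s) (u s) x| * Real.sqrt s
          = Real.sqrt (s * Lapf (A s) (θ s) (u s) x ^ 2) := by
        rw [Real.sqrt_mul hs0.le, Real.sqrt_sq_eq_abs, mul_comm]
      rw [h4]
      exact Real.sqrt_le_sqrt h3) t h0 h1
  have h5 : u 0 x = f x := hu0 x hx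
  simpa only [h5] using h2

end Pool.Agent.Helper19.RFn.ONB
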